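import Pool.Agent.T9h86.PK.Pink

/-!
# MP_28d749_ag: Pink's conjecture for the members of one-parameter families with rational parameters near the orders of the
# subgroups of `F_p^*`: one exceptional set of primes for all families

**The abelian scheme.** The base is the space of all `s = (a, b, s_1, …, s_r) ∈ ℂ^(2+r)` with `4 a³ + 27 b² ≠ 0`, and the fibre
at `s` is the `q`-th power of the elliptic curve `y² = x³ + a x + b`. By restriction one gets the `q`-th fibre power `𝒜` of any
elliptic scheme over any affine variety.

**Families.** Let `F` be an arbitrary finite system of polynomials in the `2 + r + q` coordinates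
`(a, b, s_1, …, s_r, x(P_1), …, x(P_q))` and `N` auxiliary coordinates, with coefficients in `ℚ̄[t]`. The member `X_t` (`MemberP`)
is the set of the points of `𝒜` with all `P_l` different from the origin for which there is a `y ∈ ℂ^N` such that all polynomials
of the system vanish at `(a, b, s, x(P), y)`. The tropical condition `GenericP m … (orders F D)` for the dimension `m` and a finite
set `D` of rational numbers is the one of the starting file `TropicalFamilies`.

**Theorem.** Let `G` be a real sequence with steps bounded below by a positive constant and growth at most `v^d`, let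
`θ, η ≥ 0`, `σ = d (1/2 + η) + θ < 1`, `0 ≤ c < 1` and `ρ < (1 - c) (1 - σ) / 2`. There is ONE set `E` of primes, with at most
`X^(1 - ρ)` elements up to `X` for all `X ≥ 1`, such that for ALL one-parameter families `F` (all `r`, `q`, `N`, `m`, `D`, all systems of
equations) which satisfy the tropical condition, for all but finitely many primes `p` outside `E`: for the orders `w` of ALL
subgroups of `F_p^*` which contain an integer `a` with `2 ≤ a ≤ p^c` (for example the subgroups generated by such integers),
and ALL fractions `t = u / v` in lowest terms with `1 ≤ v ≤ |u|^η` and `||u| - G(w)| ≤ w^θ` (with `v = 1`: all integers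
`t` near `± G(w)`, so for `G(w) = w` also `t = ± w`), the member `X_t` has no atypical intersection with algebraic subgroups of the
fibres (`NoAtypicalP`): for every `ρ'` every irreducible constructible subset of `X_t ∩ 𝒜^[≥ρ']` has dimension at most `m - ρ'`.
In particular `X_t ∩ 𝒜^[>m]` is empty, as in Pink's conjecture.

The starting theorem `TropicalFamilies` bounds the number of the exceptional fractions of one family with `|u| ≤ B` and given
`v ≤ B` by `C √B`. One prime `p` has many subgroups and one `w` can occur for many primes, so this count alone does not give the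
theorem. The starting files `OneNullSet` and `MetricSequences` have one exceptional set of density zero for all families, for
the values of generalised polynomials and for metric sequences. The tool for the subgroups is from helper59
(`Pool.Agent.T9h59.OR`); here it is used for countably many families at once (`Pool.Agent.T9h86.PK`).
-/

set_option autoImplicit false

namespace Pool.Agent.Results.MP_28d749_ag.SubgroupOrders

open Pool.Agent.R424.PT Pool.Agent.T9h86.PK
open Pool.Agent.N733.TG (Expanding expanding_pow)
open Pool.Agent.T9h59.OR (SubOrder subOrder_orderOf)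

/-- **Pink's conjecture for all one-parameter families at rational parameters near the orders of subgroups of `F_p^*`, with one
exceptional set of primes.** Let `G` have steps `≥ a > 0` and growth at most `v ^ d`, let `θ, η ≥ 0`, `σ = d (1/2 + η) + θ < 1`,
`0 ≤ c < 1` and `ρ < (1 - c) (1 - σ) / 2`. There is a set `E` with at most `X ^ (1 - ρ)` elements up to `X`, `X ≥ 1`, such that for all
families `F` with the tropical condition, for all but finitely many primes `p` outside `E`, for the orders `w` of ALL subgroups of
`F_p^*` which contain an integer `a`, `2 ≤ a ≤ p ^ c` (`SubOrder (p ^ c) p w`), and ALL fractions `t = u / v` in lowest terms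
with `1 ≤ v ≤ |u| ^ η` (`Frac`) and `||u| - G w| ≤ w ^ θ`, the member `X_t` has no atypical intersection (`GoodAt`). The
order of `a` modulo `p` is such a number `w`, and `α v ^ d` with `α > 0`, `d ≥ 1` is an example of `G`. -/
theorem result :
    (∀ (G : ℕ → ℝ) (d θ η : ℝ), Expanding G d → 0 ≤ θ → 0 ≤ η → d * (1 / 2 + η) + θ < 1 →
      ∀ c ρ : ℝ, 0 ≤ c → c < 1 → ρ < (1 - c) * (1 - (d * (1 / 2 + η) + θ)) / 2 →
      ∃ E : Set ℕ, (∀ X : ℕ, 1 ≤ X → ({p : ℕ | p ∈ E ∧ p ≤ X}.ncard : ℝ) ≤ (X : ℝ) ^ (1 - ρ)) ∧
        ∀ (κ : Type) [Finite κ] (r q N m : ℕ)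
          (F : κ → MvPolynomial (Coord r q ⊕ Fin N) (Polynomial (algebraicClosure ℚ ℂ))) (D : Finset ℚ),
          GenericP m (fun j => (F j).support) (orders F D) →
          {p : ℕ | p.Prime ∧ p ∉ E ∧ ¬ ∀ w, SubOrder ((p : ℝ) ^ c) p w → ∀ t : ℤ × ℕ, Frac η t →
            |(|(t.1 : ℝ)|) - G w| ≤ (w : ℝ) ^ θ → GoodAt F m t}.Finite) ∧
    (∀ (B : ℝ) (p a : ℕ), p.Prime → 2 ≤ a → (a : ℝ) ≤ B → ¬ p ∣ a → SubOrder B p (orderOf (a : ZMod p))) ∧
    ∀ α d : ℝ, 0 < α → 1 ≤ d → Expanding (fun v => α * (v : ℝ) ^ d) d := by
  refine ⟨fun G d θ η hG hθ hη h1 c ρ hc0 hc1 hρ => ?_, fun B p a hp ha haB hpa => subOrder_orderOf hp ha haB hpa,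
    fun α d hα hd => expanding_pow hα hd⟩
  have hd := hG.one_le
  have hη1 : η ≤ 1 := by nlinarith
  obtain ⟨E, hE1, hE2⟩ := subs_all (fun t : ℤ × ℕ => |(t.1 : ℝ)|) (badSets_countable η) hG (s := 1 / 2 + η)
    (by linarith) hθ h1 (badSets_thin hη hη1) hc0 hc1 hρ
  refine ⟨E, hE1, fun κ _ r q N m F D hgen => ?_⟩
  refine (hE2 (badSet F m η) ⟨κ, inferInstance, r, q, N, m, F, D, hgen, rfl⟩).subset ?_
  rintro p ⟨hp, hpE, h⟩
  refine ⟨hp, hpE, fun hcon => h fun w hw t ht htw => ?_⟩
  by_contra hbad
  exact hcon w hw t ⟨ht, hbad⟩ htw

end Pool.Agent.Results.MP_28d749_ag.SubgroupOrders
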