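import Pool.Agent.T9h86.PK.Pink

/-!
# MP_28d749_ag: Pink's conjecture for the members of one-parameter families with rational parameters near the members of the
# orbits of Euler's function: one exceptional set for all families

**The abelian scheme.** The base is the space of all `s = (a, b, s_1, …, s_r) ∈ ℂ^(2+r)` with `4 a³ + 27 b² ≠ 0`, and the fibre
at `s` is the `q`-th power of the elliptic curve `y² = x³ + a x + b`. By restriction one gets the `q`-th fibre power `𝒜` of any
elliptic scheme over any affine variety.

**Families.** Let `F` be an arbitrary finite system of polynomials in the `2 + r + q` coordinates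
`(a, b, s_1, …, s_r, x(P_1), …, x(P_q))` and `N` auxiliary coordinates, with coefficients in `ℚ̄[t]`. The member `X_t` (`MemberP`)
is the set of the points of `𝒜` with all `P_l` different from the origin for which there is a `y ∈ ℂ^N` such that all polynomials
of the system vanish at `(a, b, s, x(P), y)`. The tropical condition `GenericP m … (orders F D)` for the dimension `m` and a finite
set `D` of rational numbers is the one of the starting file `TropicalFamilies`.

**Theorem.** Let `f` be a function like `n`, `φ(n)`, `σ(n)` (class `LM`), let `φ_k` be the `k`-th iterate of Euler's function, let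
`G` be a real sequence with steps bounded below by a positive constant and growth at most `v^d`, and let `θ, η ≥ 0`,
`d (1/2 + η) + θ < 1`. There are ONE set `E` of density zero and ONE function `K(n)` which tends to infinity such that for ALL
one-parameter families `F` (all `r`, `q`, `N`, `m`, `D`, all systems of equations) which satisfy the tropical condition, for all but
finitely many `n` outside `E`: for ALL `k ≤ K(n)`, with `w = f(φ_k(n))`, and ALL fractions `t = u / v` in lowest terms with
`1 ≤ v ≤ |u|^η` and `||u| - G(w)| ≤ w^θ` (with `v = 1`: all integers `t` near `± G(w)`, so for `G(w) = w` also `t = ± w`), the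
member `X_t` has no atypical intersection with algebraic subgroups of the fibres (`NoAtypicalP`): for every `ρ` every irreducible
constructible subset of `X_t ∩ 𝒜^[≥ρ]` has dimension at most `m - ρ`. In particular `X_t ∩ 𝒜^[>m]` is empty, as in Pink's
conjecture.

The starting theorem `TropicalFamilies` bounds the number of the exceptional fractions of one family with `|u| ≤ B` and given
`v ≤ B` by `C √B`. The values of the iterates of Euler's function are a thin set, and a value can have many preimages, so this
count alone does not give the theorem. The starting files `OneNullSet` and `MetricSequences` have one exceptional set of density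
zero for all families, for the values of generalised polynomials and for metric sequences. The tool for the orbits is from
helper760 (`Pool.Agent.N760.IT`); here it is used for countably many families at once (`Pool.Agent.T9h86.PK`).
-/

set_option autoImplicit false

namespace Pool.Agent.Results.MP_28d749_ag.TotientOrbits

open Filter Topology Pool.Agent.R424.PT Pool.Agent.T9h86.PK
open Pool.Agent.N733.TG (LM Expanding expanding_pow)
open Pool.Agent.N826.IT.Orb (AlmostAll)

/-- **Pink's conjecture for all one-parameter families at rational parameters near the members of the orbits of Euler's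
function, with one exceptional set.** Let `f` be in the class `LM`, let `G` have steps `≥ a > 0` and growth at most `v ^ d`, and let
`θ, η ≥ 0`, `d (1/2 + η) + θ < 1`. There are a function `K` which tends to infinity and a set `E` of density zero such that for all
families `F` with the tropical condition, for all but finitely many `n` outside `E`, for ALL `k ≤ K n`, with
`w = f (φ_k n)`, and ALL fractions `t = u / v` in lowest terms with `1 ≤ v ≤ |u| ^ η` (`Frac`) and `||u| - G w| ≤ w ^ θ`, the
member `X_t` has no atypical intersection (`GoodAt`). The functions `n`, `φ(n)`, `σ(n)` are in the class `LM`, and `α v ^ d` with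
`α > 0`, `d ≥ 1` is an example of `G`. -/
theorem result :
    (∀ (f : ℕ → ℕ) (G : ℕ → ℝ) (d θ η : ℝ), LM f → Expanding G d → 0 ≤ θ → 0 ≤ η → d * (1 / 2 + η) + θ < 1 →
      ∃ (K : ℕ → ℕ) (E : Set ℕ), Tendsto K atTop atTop ∧ AlmostAll (fun n => n ∉ E) ∧
        ∀ (κ : Type) [Finite κ] (r q N m : ℕ)
          (F : κ → MvPolynomial (Coord r q ⊕ Fin N) (Polynomial (algebraicClosure ℚ ℂ))) (D : Finset ℚ),
          GenericP m (fun j => (F j).support) (orders F D) →
          {n : ℕ | n ∉ E ∧ ¬ ∀ k ≤ K n, ∀ t : ℤ × ℕ, Frac η t →
            |(|(t.1 : ℝ)|) - G (f (Nat.totient^[k] n))| ≤ (f (Nat.totient^[k] n) : ℝ) ^ θ → GoodAt F m t}.Finite) ∧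
    (LM (fun n => n) ∧ LM Nat.totient ∧ LM (fun n => ∑ d ∈ n.divisors, d)) ∧
    ∀ α d : ℝ, 0 < α → 1 ≤ d → Expanding (fun v => α * (v : ℝ) ^ d) d := by
  refine ⟨fun f G d θ η hf hG hθ hη h1 => ?_,
    ⟨Pool.Agent.N760.IT.lm_id, Pool.Agent.N733.TG.lm_totient, Pool.Agent.N733.TG.lm_sigma⟩,
    fun α d hα hd => expanding_pow hα hd⟩
  have hd := hG.one_le
  have hη1 : η ≤ 1 := by nlinarith
  obtain ⟨K, E, hK, hE1, hE2⟩ := orbits_all (fun t : ℤ × ℕ => |(t.1 : ℝ)|) (badSets_countable η) hf hG (s := 1 / 2 + η)
    (by linarith) hθ h1 (badSets_thin hη hη1)
  refine ⟨K, E, hK, hE1, fun κ _ r q N m F D hgen => ?_⟩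
  refine (hE2 (badSet F m η) ⟨κ, inferInstance, r, q, N, m, F, D, hgen, rfl⟩).subset ?_
  rintro n ⟨hnE, h⟩
  refine ⟨hnE, fun hcon => h fun k hk t ht htw => ?_⟩
  by_contra hbad
  exact hcon k hk t ⟨ht, hbad⟩ htw

end Pool.Agent.Results.MP_28d749_ag.TotientOrbits
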