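import Pool.Agent.T9h40.Prod.Res
import Pool.Agent.T9h40.Prod.Fam

/-!
# MP_28d749_ag: a tropical criterion for Pink's conjecture in products of different elliptic schemes,
with isogenies between the fibres

**The abelian scheme.** The base is the space of all
`s = (a_1, b_1, …, a_g, b_g, s_1, …, s_r) ∈ ℂ^(2g+r)` with `4 a_k³ + 27 b_k² ≠ 0` for all `k`, and the
fibre at `s` (`Fibre`) is the product of `q` elliptic curves, of which the curve number `j` is
`E_{ty j}`, where `E_k : y² = x³ + a_k x + b_k` (`curve`). By restriction one gets all products
`𝒜 = E_1^(q_1) × … × E_g^(q_g)` of powers of elliptic schemes over any affine variety. A point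
`(P_1, …, P_q)` of the fibre at `s` has the coordinates `(a_1, …, b_g, s_1, …, s_r, x(P_1), …, x(P_q))`
(`point`); they determine it up to the signs of the `P_j`.

**Subvarieties.** Let `∑_β c j β z^β`, `j ∈ κ`, be an arbitrary finite system of polynomials in these
coordinates and `N` auxiliary coordinates, with complex coefficients and exponents `β` in finite sets
`supp j`. Let `X` (`OnX`) be the set of the points of `𝒜` with all `P_j` different from the origins for
which there is a `y ∈ ℂ^N` such that all polynomials of the system vanish at `(a, b, s, x(P), y)`. So
`X` can be any subvariety of `𝒜` which is stable under the signs of the `P_j`, or the image of any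
variety, minus the zero sections.

**Algebraic subgroups.** Fibres of different elliptic schemes can be isogenous, and then they have
algebraic subgroups which are not products of subgroups of the `E_k^(q_k)`. Every algebraic subgroup of
the fibre of codimension at least `ρ` has a type `cls`, which gives the classes of the curves `E_k` that
are connected by isogenies, and is given up to torsion by relations with endomorphisms as
coefficients between the images of the points `P_j` under isogenies from the curves of a class to one
elliptic curve (`InSub`). The set `𝒞` is an arbitrary set of types which are admitted (for instance all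
types; or only `cls = id`, the products of subgroups, if the curves are never isogenous), and `𝒟` is a
set of degrees of isogenies which are admitted (`InSubC`).

**Places.** Let `p_l ≥ 5` be prime numbers (`l ∈ I`) such that the coefficients have orders at all
places above `p_l`: `v(c j β) = e l j β v(p_l)` for all valuations `v` of `ℂ` with `v(p_l) > 0` (`OrdAt`).
The tropicalization at `l` is the set of the points `w` of `(ℚ ∪ {∞})^(2g+r+q+N)` such that for every
polynomial of the system the minimum of the numbers `e l j β + β · w` is attained at two different
exponents or is infinite (`TropAt`).

**The condition** (`Generic`). Let `m` be an integer, the dimension of `X`. For `ρ ≥ 0` and a type `cls` a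
point `w` is called independent (`Independent`) if there is a set `J` of more than `q - ρ` indices such
that, with `μ_k = min(w(a_k)/2, w(b_k)/3)`,
* `w(x_j) + 1/2 < μ_{ty j}` for `j ∈ J`, and
* `(w(x_i) - μ_{ty i}) - (w(x_j) - μ_{ty j})` is not an integer for different `i, j ∈ J` with
  `cls (ty i) = cls (ty j)`.
The condition is: for every set `T` of coordinates (of the base or abscissas), every `ρ ≥ 0` with
`|T| + ρ = m + 1` and every `cls ∈ 𝒞` there are an `l` and rational numbers `τ_i`, `i ∈ T`, such that
every point `w` of the tropicalization at `l` with `w_i = τ_i` for `i ∈ T` is independent. (For one
curve, and also if all the curves are of the form `y² = x³ + A_k a x + B_k b` with constants `A_k, B_k`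
which are units at the places, so that the `μ_k` are equal, this is the condition of the starting file
`TropicalLocalCriterion`, with the best `μ`.)

**Theorem.**
1. If the condition is satisfied then `X` has no atypical intersection with algebraic subgroups of
   the fibres of types in `𝒞`, defined with isogenies of degrees which are prime to the `p_l`
   (`NoAtypical`): for every `ρ` every irreducible constructible set of points of `X` in such subgroups
   of codimension at least `ρ` has dimension at most `m - ρ`, and these points have transcendence degree
   at most `m - ρ` over `ℚ`. For `ρ = m + 1` there are no such points, as in Pink's conjecture.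
2. For given finite sets `supp j` and given orders `e l j β` which satisfy the condition, and for every
   `Q₀ > 0`, there is a residue class of integral coefficient vectors modulo some `Q > 0`, all of whose
   prime factors are larger than `Q₀`, such that for all systems with the coefficients in the residue
   class there is no atypical intersection with algebraic subgroups defined with isogenies of degrees
   prime to `Q`, for instance with isogenies of degrees `≤ Q₀`.
3. Let `F` be a finite system of polynomials with coefficients in `ℚ̄[t]`, `X_t` (`Member`) the
   one-parameter family of the sets defined by it, and suppose that the condition is satisfied for the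
   tropicalizations at the elements `α` of a finite set `D` of rational numbers, with the orders at
   `t = α` of the coefficients (`orders`). Then for all transcendental numbers `t` the member `X_t` has
   no atypical intersection with any algebraic subgroups of types in `𝒞`, without a condition on the
   degrees of the isogenies (over any countable field which contains `t`).
4. For such a family and for every `L`, for all rational numbers `t = u / v` in lowest terms with few
   exceptions, namely for all `B ≥ 1` and `v ≤ B` for all but at most `C √B` of the integers `u` with
   `|u| ≤ B` prime to `v`, the member `X_t` has no atypical intersection with the algebraic subgroups of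
   types in `𝒞` which are defined with isogenies whose degrees have no prime factor `> L`, in
   particular with isogenies of degrees `≤ L`. The constant `C` depends only on the family and on `L`.

In 2 and 4 the varieties are defined over number fields.

**The proof.** As in the starting files, a point of `X` in an algebraic subgroup of codimension `ρ` with
algebraically independent coordinates `z_i`, `i ∈ T`, has at a suitable place above `p_l` values which
give a point `w` of the tropicalization with `w_i = τ_i`; and points near to the origin of one elliptic
curve, deep enough for the logarithm, are independent over the endomorphism ring if their values are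
different modulo the values of the endomorphisms. New is the passage from different isogenous curves
to one curve. Near the origin an isogeny `ψ : E → E'` multiplies the parameter by its multiplier `c` on
the differentials, so one has to control the value of `c`. We prove by elementary means (`mult_le`):
*if `E` and `E'` are given by integral Weierstrass equations `y² = x³ + a x + b` whose reduction is not a
cusp (good or multiplicative reduction), and the residue characteristic is not `2` or `3`, then `c` is
integral.* The proof uses general points, whose abscissas avoid finitely many residue classes, the
Gauss norms of the numerator and the denominator of `ψ` on the abscissas, the addition formulas for the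
abscissas of `P + Q` and `P - Q`, and torsion points of order `2^k` with nonsingular reduction: first
the image of a general point is general, then `ψ` maps the points near the origin to such points. By
duality `c` is a unit if the degree of `ψ` is prime to the residue characteristic. With
`μ = min(w(a)/2, w(b)/3)` as the scale of a curve one gets the shift `μ' - μ` of the values of the
abscissas. For a transcendental `t` one can choose `p` prime to the degrees of the isogenies.

**Relation to other results.** The starting files `TropicalLocalCriterion` and `TropicalFamilies` treat
powers of one elliptic scheme; here `g` different elliptic schemes with all isogenies between their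
fibres are admitted. For curves over number fields in products of elliptic schemes without isogenies
between the schemes there are theorems of Masser and Zannier and of Barroero and Capuano.
-/

set_option autoImplicit false

namespace Pool.Agent.Results.MP_28d749_ag.TropicalProducts

open MvPolynomial Pool.Agent.T9h40.Prod
open Pool.Agent.R424.PT (OrdAt)

/-- **The tropical criterion** for Pink's conjecture in products of different elliptic schemes: the local
criterion, integral systems in a residue class, and one-parameter families with transcendental and
with rational parameters. -/
theorem result (κ : Type) [Finite κ] (g r q N m : ℕ) (ty : Fin q → Fin g)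
    (𝒞 : Set (Fin g → Fin g)) :
    (∀ (supp : κ → Finset ((Coord g r q ⊕ Fin N) →₀ ℕ)) (I : Type)
      (c : κ → ((Coord g r q ⊕ Fin N) →₀ ℕ) → ℂ)
      (e : I → κ → ((Coord g r q ⊕ Fin N) →₀ ℕ) → ℕ), Generic ty 𝒞 m supp e →
      ∀ p : I → ℕ, (∀ l, (p l).Prime) → (∀ l, 5 ≤ p l) →
      (∀ l j, ∀ β ∈ supp j, OrdAt (p l) (c j β) (e l j β)) →
      NoAtypical ℚ 𝒞 {n | ∀ l, ¬ p l ∣ n} m (OnX (ty := ty) supp c)) ∧
    (∀ (supp : κ → Finset ((Coord g r q ⊕ Fin N) →₀ ℕ)) (M : ℕ)
      (e : Fin M → κ → ((Coord g r q ⊕ Fin N) →₀ ℕ) → ℕ), Generic ty 𝒞 m supp e →
      ∀ Q₀ : ℕ, 0 < Q₀ → ∃ Q : ℕ, 0 < Q ∧ (∀ p : ℕ, p.Prime → p ∣ Q → Q₀ < p) ∧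
        ∃ c₀ : κ → ((Coord g r q ⊕ Fin N) →₀ ℕ) → ℤ,
          ∀ c : κ → ((Coord g r q ⊕ Fin N) →₀ ℕ) → ℤ,
            (∀ j, ∀ β ∈ supp j, (Q : ℤ) ∣ c j β - c₀ j β) →
            NoAtypical ℚ 𝒞 {n | n.Coprime Q} m
              (OnX (ty := ty) supp fun j β => ((c j β : ℤ) : ℂ))) ∧
    ∀ (F : κ → MvPolynomial (Coord g r q ⊕ Fin N) (Polynomial (algebraicClosure ℚ ℂ)))
      (D : Finset ℚ), Generic ty 𝒞 m (fun j => (F j).support) (orders F D) →
      (∀ t : ℂ, Transcendental ℚ t → ∀ (K : Subfield ℂ) [Countable K], t ∈ K →
        NoAtypical K 𝒞 Set.univ m (Member (ty := ty) F t)) ∧
      ∀ L : ℕ, ∃ C : ℝ, ∀ B : ℕ, 1 ≤ B → ∀ v : ℕ, 1 ≤ v → v ≤ B →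
        ({u : ℤ | |u| ≤ B ∧ IsCoprime u (v : ℤ) ∧
          ¬ NoAtypical ℚ 𝒞 {n | ∀ p : ℕ, p.Prime → p ∣ n → p ≤ L} m
            (Member (ty := ty) F ((u : ℂ) / v))}.ncard : ℝ) ≤ C * Real.sqrt B :=
  ⟨fun supp _ c e hgen p hp hp5 he => core 𝒞 m supp c e hgen p hp hp5 he,
    fun supp _ e hgen Q₀ hQ₀ => residue 𝒞 supp e hgen Q₀ hQ₀,
    fun F D hgen => ⟨fun t ht K _ htK => trans F D 𝒞 m hgen t ht K htK,
      fun L => rat F D 𝒞 m hgen L⟩⟩

end Pool.Agent.Results.MP_28d749_ag.TropicalProducts
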