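import Pool.Agent.T9h37.PK.Van

/-!
# MP_28d749_ag: a counterexample to Q1 for every elliptic curve over `ℚ̄`

Let `E : y² = x³ + a x + b` be any elliptic curve over `ℚ̄` and `f(s) = s³ + a s + b`.

**The abelian scheme.** The base `S` (`Base`) is the affine line minus the zeros of `f`, a smooth
irreducible curve. The abelian scheme is `𝒜 = E × E'`, where `E'` is the quadratic twist
`f(s) y² = x³ + a x + b` of the constant elliptic scheme, in Weierstrass form
`E'_s : y² = x³ + a f(s)² x + b f(s)³` (discriminant `f(s)⁶ disc(E) ≠ 0`). So the relative dimension is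
`g = 2`; the fibre at `s` is `Fibre s`, with the group structures of Mathlib, and `Total` is
`𝒜(ℚ̄)`. Everything is defined over the number field `ℚ(a, b)`.

**The Zariski topology.** `𝒜` is closed in `S × ℙ² × ℙ²`; a point `(s, P, P')` has the homogeneous
coordinates `(s; X : Y : Z; X' : Y' : Z')` (`coords`, with `Z = 1` for affine points and `(0 : 1 : 0)` for
the origins). The closed subsets of `𝒜` (`ZClosed`) are the sets of zeros of families of polynomials
in these seven coordinates which are homogeneous in `X, Y, Z` and in `X', Y', Z'`.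

**The subvariety.** `𝒳` (`Curve`) is the set of the points
`(s, (s, y), (s f(s), f(s)²))`, `y² = f(s)`. The second point is the section `x = s`, `y = 1` of
`f(s) y² = x³ + a x + b`. `𝒳` is isomorphic to `E` minus the points of order dividing two.

**Theorem.**
1. `𝒳` is a closed irreducible subvariety of dimension `d = 1`: it is closed and infinite, and every
   closed subset of `𝒜` contains `𝒳` or has only finitely many points in common with `𝒳`.
2. `𝒳` lies in no strict group subscheme of `𝒜`: if `G` is a closed subset of `𝒜` which contains `𝒳` and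
   all of whose fibres `G_s` are subgroups of the `𝒜_s`, then `G = 𝒜`. More generally this is true over
   all nonempty open subsets of `S`: if for all `s` outside a finite set `N` the fibre `G_s` is a subgroup
   and contains `𝒳_s`, then `G = 𝒜`.
3. `𝒳 ∩ 𝒜^[>1]` is Zariski dense in `𝒳`: a closed subset which contains the points of `𝒳` in algebraic
   subgroups of codimension `> 1` of the fibres, that is, in finite subgroups (`Special`), contains `𝒳`.
   (In fact `𝒳` contains infinitely many torsion points.)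

This is the negated form of Q1. The reason is monodromy: over the double cover `S' → S`, `δ² = f(s)`, the
twist `E'` becomes isomorphic to `E`, and the two components of the pullback of `𝒳` are in the
graphs of the isomorphism `ψ` and of `-ψ`, which are exchanged by the involution of `S'` and so do not
descend to `S`. (`𝒜` is isogenous to the Weil restriction of the constant elliptic scheme `E × S'` from
`S'` to `S`.) So in the conjecture `𝒳` has to be supposed to be in no strict group subscheme even after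
a finite base change, or `⋃ [N] 𝒳` has to be supposed to be dense in `𝒜`.

Proof. For `P = (s, y)` and `P' = (s f(s), f(s)²)` one has `P' = ψ_y(P)`, where
`ψ_δ(u, v) = (δ² u, δ³ v)` is an isomorphism of `E` with `E'_s` (`δ² = f(s)`). So `P'` is a torsion point if
`P` is one, and 3 follows. If `G` is as in 2, then `(P, P')` and `(-P, P')` are in `G_s`, and so `G_s`
contains `(2P, 0)` and `(0, 2P')`, and `(2^m P, 0)` and `(0, ψ_y(2^m P))` for `m ≥ 1`. For a given point `R`
of `E` there are infinitely many `P` with `2^m P = R` for some `m ≥ 1`. The polynomials which define `G`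
vanish at `(s; R; 0)` and `(s; 0; ψ_y(R))` for these infinitely many points `P = (s, y)` of `E`, and so for
all `s` and `y`.
-/

set_option autoImplicit false

namespace Pool.Agent.Results.MP_28d749_ag.WeilRestriction

open WeierstrassCurve Pool.Agent.T9h37.PK

section defs

variable {k : Type} [Field k]

/-- the points of the base: the affine line minus the zeros of `f(s) = s³ + a s + b` -/
def Base (a b : k) : Type := {s : k // cub a b s ≠ 0}

/-- the points of the elliptic curve `y² = x³ + A x + B` (with the group structure of Mathlib) -/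
abbrev Pts (A B : k) : Type := (crv A B).toAffine.Point

/-- the twisted curve `E'_s : y² = x³ + a f(s)² x + b f(s)³` -/
abbrev Twist (a b : k) (s : Base a b) : WeierstrassCurve k :=
  crv (a * cub a b s.1 ^ 2) (b * cub a b s.1 ^ 3)

/-- the fibre of `𝒜` at `s`: the points of `y² = x³ + a x + b` times the points of
`y² = x³ + a f(s)² x + b f(s)³` -/
abbrev Fibre (a b : k) (s : Base a b) : Type := Pts a b × (Twist a b s).toAffine.Point

/-- the points of `𝒜` -/
def Total (a b : k) : Type := Σ s : Base a b, Fibre a b s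

/-- homogeneous coordinates of a point of an elliptic curve -/
def hom {W : WeierstrassCurve k} : W.toAffine.Point → Fin 3 → k
  | 0 => ![0, 1, 0]
  | Affine.Point.some x y _ => ![x, y, 1]

/-- the coordinates `(s; X : Y : Z; X' : Y' : Z')` of a point of `𝒜` -/
def coords {a b : k} (z : Total a b) : Fin 7 → k :=
  ![z.1.1, hom z.2.1 0, hom z.2.1 1, hom z.2.1 2, hom z.2.2 0, hom z.2.2 1, hom z.2.2 2]

/-- the bidegrees of the coordinates -/
def bideg : Fin 7 → ℕ × ℕ := ![(0, 0), (1, 0), (1, 0), (1, 0), (0, 1), (0, 1), (0, 1)]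

/-- the Zariski closed subsets of `𝒜 ⊆ S × ℙ² × ℙ²`: the sets of zeros of families of bihomogeneous
polynomials -/
def ZClosed {a b : k} (C : Set (Total a b)) : Prop :=
  ∃ F : Set (MvPolynomial (Fin 7) k), (∀ p ∈ F, ∃ e, MvPolynomial.IsWeightedHomogeneous bideg p e) ∧
    ∀ z, z ∈ C ↔ ∀ p ∈ F, MvPolynomial.eval (coords z) p = 0

/-- the fibre of `G` at `s` is a subgroup of `𝒜_s` -/
def SubgroupAt [DecidableEq k] {a b : k} (G : Set (Total a b)) (s : Base a b) : Prop :=
  ∃ H : AddSubgroup (Fibre a b s), ∀ x : Fibre a b s, (⟨s, x⟩ : Total a b) ∈ G ↔ x ∈ H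

/-- `P` is the affine point `(x, y)` -/
def IsPt {W : WeierstrassCurve k} (P : W.toAffine.Point) (x y : k) : Prop :=
  ∃ h, P = Affine.Point.some x y h

/-- the subvariety `𝒳`: the points `(s, (s, y), (s f(s), f(s)²))` with `y² = f(s)` -/
def Curve (a b : k) : Set (Total a b) :=
  {z | ∃ y, IsPt z.2.1 z.1.1 y ∧ IsPt z.2.2 (z.1.1 * cub a b z.1.1) (cub a b z.1.1 ^ 2)}

/-- the set `𝒜^[>1]`: the union of the algebraic subgroups of codimension greater than one of the
fibres, that is, of the finite subgroups, because the fibres are surfaces -/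
def Special [DecidableEq k] (a b : k) : Set (Total a b) :=
  {z | ∃ H : AddSubgroup (Fibre a b z.1), (H : Set (Fibre a b z.1)).Finite ∧ z.2 ∈ H}

end defs

section basic

variable {k : Type} [Field k] {a b : k}

lemma hom_zero {W : WeierstrassCurve k} : hom (0 : W.toAffine.Point) = ![0, 1, 0] := rfl

lemma hom_some {W : WeierstrassCurve k} {x y : k} (h : W.toAffine.Nonsingular x y) :
    hom (Affine.Point.some x y h : W.toAffine.Point) = ![x, y, 1] := rfl

lemma cub_ne (s : Base a b) : cub a b s.1 ≠ 0 := s.2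

/-- the coordinates of `(s, R, ψ_δ(R'))` -/
def vec (a b : k) (R R' : Pts a b) (s δ : k) : Fin 7 → k :=
  ![s, hom R 0, hom R 1, hom R 2, cub a b s * hom R' 0,
    hom R' 2 * (cub a b s * δ * hom R' 1) + (1 - hom R' 2) * 1, hom R' 2]

lemma rep_vec (R R' : Pts a b) (i : Fin 7) : Rep a b (fun s δ => vec a b R R' s δ i) := by
  fin_cases i
  · exact Rep.fst
  · exact Rep.const _
  · exact Rep.const _
  · exact Rep.const _
  · exact Rep.ofCub.mul (Rep.const _)
  · exact ((Rep.const _).mul ((Rep.ofCub.mul Rep.snd).mul (Rep.const _))).add (Rep.const _)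
  · exact Rep.const _

/-- the coordinates of the points of `𝒳` -/
def vecX (a b : k) (s δ : k) : Fin 7 → k :=
  ![s, s, δ, 1, s * cub a b s, cub a b s * cub a b s, 1]

lemma rep_vecX (i : Fin 7) : Rep a b (fun s δ => vecX a b s δ i) := by
  fin_cases i
  · exact Rep.fst
  · exact Rep.fst
  · exact Rep.snd
  · exact Rep.const _
  · exact Rep.fst.mul Rep.ofCub
  · exact Rep.ofCub.mul Rep.ofCub
  · exact Rep.const _

lemma coords_curve {z : Total a b} {y : k} {h h'} (h1 : z.2.1 = Affine.Point.some z.1.1 y h)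
    (h2 : z.2.2 = Affine.Point.some (z.1.1 * cub a b z.1.1) (cub a b z.1.1 ^ 2) h') :
    coords z = vecX a b z.1.1 y := by
  ext i
  fin_cases i
  · rfl
  · show hom z.2.1 0 = _
    rw [h1]
    rfl
  · show hom z.2.1 1 = _
    rw [h1]
    rfl
  · show hom z.2.1 2 = _
    rw [h1]
    rfl
  · show hom z.2.2 0 = _
    rw [h2]
    rfl
  · show hom z.2.2 1 = _
    rw [h2]
    show cub a b z.1.1 ^ 2 = cub a b z.1.1 * cub a b z.1.1
    ring
  · show hom z.2.2 2 = _
    rw [h2]
    rfl

end basic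

section proofs

variable {k : Type} [Field k] [CharZero k] [IsAlgClosed k] [DecidableEq k] {a b : k}

/-- a square root of `f(s)` -/
lemma exists_root (s : Base a b) : ∃ δ : k, δ ≠ 0 ∧ δ ^ 2 = cub a b s.1 := by
  obtain ⟨δ, hδ⟩ := IsAlgClosed.exists_pow_nat_eq (cub a b s.1) (n := 2) (by norm_num)
  refine ⟨δ, ?_, hδ⟩
  rintro rfl
  exact cub_ne s (by rw [← hδ]; ring)

/-- the homomorphism `g` is `ψ_δ` -/
def IsPsi (s : Base a b) (δ : k)
    (g : Pts a b →+ (Twist a b s).toAffine.Point) : Prop :=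
  Function.Bijective g ∧ ∀ x y h, ∃ h', g (Affine.Point.some x y h) =
    Affine.Point.some (cub a b s.1 * x) (cub a b s.1 * δ * y) h'

/-- the isomorphism with the twist -/
lemma exists_psi (s : Base a b) {δ : k} (hδ : δ ≠ 0) (hs : δ ^ 2 = cub a b s.1) :
    ∃ g, IsPsi s δ g := by
  obtain ⟨g, hg, hg'⟩ := exists_tr (s := δ) hδ (A := a) (B := b)
    (A' := a * cub a b s.1 ^ 2) (B' := b * cub a b s.1 ^ 3)
    (by rw [← hs]; ring) (by rw [← hs]; ring)
  refine ⟨g, hg, fun x y h => ?_⟩
  obtain ⟨h', he⟩ := hg' x y h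
  have e1 : cub a b s.1 * x = δ ^ 2 * x := by rw [hs]
  have e2 : cub a b s.1 * δ * y = δ ^ 3 * y := by rw [← hs]; ring
  rw [e1, e2]
  exact ⟨h', he⟩

lemma hom_psi (s : Base a b) {δ : k} {g} (hg : IsPsi s δ g) (R' : Pts a b) :
    hom (g R') 0 = cub a b s.1 * hom R' 0 ∧
    hom (g R') 1 = hom R' 2 * (cub a b s.1 * δ * hom R' 1) + (1 - hom R' 2) * 1 ∧
    hom (g R') 2 = hom R' 2 := by
  rcases R' with _ | ⟨x, y, h⟩
  · have e : (Affine.Point.zero : Pts a b) = 0 := rfl
    rw [e, map_zero, hom_zero, hom_zero]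
    simp
  · obtain ⟨h', he⟩ := hg.2 x y h
    rw [he, hom_some, hom_some]
    simp

lemma coords_psi (s : Base a b) {δ : k} {g} (hg : IsPsi s δ g) (R R' : Pts a b) :
    coords (⟨s, (R, g R')⟩ : Total a b) = vec a b R R' s.1 δ := by
  obtain ⟨h1, h2, h3⟩ := hom_psi s hg R'
  show ![s.1, hom R 0, hom R 1, hom R 2, hom (g R') 0, hom (g R') 1, hom (g R') 2] = _
  rw [h1, h2, h3]
  rfl

/-- the points of `𝒳` -/
lemma mem_curve (s : Base a b) {y : k} (hs : y ^ 2 = cub a b s.1)
    (h : (crv a b).toAffine.Nonsingular s.1 y) {g} (hg : IsPsi s y g) :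
    (⟨s, (Affine.Point.some s.1 y h, g (Affine.Point.some s.1 y h))⟩ : Total a b) ∈ Curve a b := by
  obtain ⟨h', he⟩ := hg.2 s.1 y h
  have e1 : cub a b s.1 * s.1 = s.1 * cub a b s.1 := by ring
  have e2 : cub a b s.1 * y * y = cub a b s.1 ^ 2 := by
    have : cub a b s.1 * y * y = cub a b s.1 * y ^ 2 := by ring
    rw [this, hs]
    ring
  have h'' := h'
  rw [e1, e2] at h''
  refine ⟨y, ⟨h, rfl⟩, h'', ?_⟩
  show g _ = _
  rw [he]
  exact some_eq e1 e2

/-- the same for the conjugate point -/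
lemma mem_curve' (s : Base a b) {y : k} (hs : y ^ 2 = cub a b s.1)
    (h : (crv a b).toAffine.Nonsingular s.1 y) {g} (hg : IsPsi s y g) :
    (⟨s, (-Affine.Point.some s.1 y h, g (Affine.Point.some s.1 y h))⟩ : Total a b) ∈
      Curve a b := by
  obtain ⟨y₁, -, h₂, h4⟩ := mem_curve s hs h hg
  have hn : (crv a b).toAffine.Nonsingular s.1 (-y) := by
    have h5 := ((crv a b).toAffine.nonsingular_neg s.1 y).2 h
    rwa [crv_negY] at h5
  refine ⟨-y, ⟨hn, ?_⟩, h₂, h4⟩
  show -Affine.Point.some s.1 y h = _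
  rw [Affine.Point.neg_some]
  exact some_eq rfl (crv_negY _ _ _ _)

/-- closed: an infinite set of points `(s, δ)` of `E` is enough -/
lemma closed_step {G : Set (Total a b)} (hG : ZClosed G) (R R' : Pts a b)
    (hinf : {z : k × k | z.2 ^ 2 = cub a b z.1 ∧ ∃ hz : cub a b z.1 ≠ 0,
      ∀ g, IsPsi ⟨z.1, hz⟩ z.2 g → (⟨⟨z.1, hz⟩, (R, g R')⟩ : Total a b) ∈ G}.Infinite)
    (s : Base a b) {δ : k} (hδ : δ ^ 2 = cub a b s.1) {g} (hg : IsPsi s δ g) :
    (⟨s, (R, g R')⟩ : Total a b) ∈ G := by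
  obtain ⟨F, -, hF⟩ := hG
  refine (hF _).2 fun p hp => ?_
  rw [coords_psi s hg]
  refine (Rep.eval (rep_vec R R') p).zero (hinf.mono ?_) s.1 δ hδ
  rintro ⟨s₁, δ₁⟩ ⟨h1, h2, h3⟩
  refine ⟨h1, ?_⟩
  simp only at h1 h2 h3 ⊢
  have hδ1 : δ₁ ≠ 0 := by
    rintro rfl
    apply h2
    rw [← h1]
    ring
  obtain ⟨g₁, hg₁⟩ := exists_psi ⟨s₁, h2⟩ hδ1 h1
  have h4 := (hF _).1 (h3 g₁ hg₁) p hp
  rw [coords_psi ⟨s₁, h2⟩ hg₁] at h4
  exact h4

/-- the polynomial `f(s)` -/
noncomputable def fpol (a b : k) : MvPolynomial (Fin 7) k :=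
  MvPolynomial.X 0 ^ 3 + MvPolynomial.C a * MvPolynomial.X 0 + MvPolynomial.C b

omit [CharZero k] [IsAlgClosed k] [DecidableEq k] in
lemma eval_fpol (v : Fin 7 → k) : MvPolynomial.eval v (fpol a b) = cub a b (v 0) := by
  rw [fpol, cub]
  simp

omit [CharZero k] [IsAlgClosed k] [DecidableEq k] in
lemma wh_X (i : Fin 7) : MvPolynomial.IsWeightedHomogeneous bideg
    (MvPolynomial.X i : MvPolynomial (Fin 7) k) (bideg i) :=
  MvPolynomial.isWeightedHomogeneous_X _ _ _

omit [CharZero k] [IsAlgClosed k] [DecidableEq k] in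
lemma wh_fpol : MvPolynomial.IsWeightedHomogeneous bideg (fpol a b) (0 : ℕ × ℕ) := by
  have h0 : MvPolynomial.IsWeightedHomogeneous bideg
      (MvPolynomial.X 0 : MvPolynomial (Fin 7) k) (0 : ℕ × ℕ) := wh_X 0
  refine (MvPolynomial.IsWeightedHomogeneous.add ?_ ?_).add ?_
  · have := h0.pow 3
    simpa using this
  · have := (MvPolynomial.isWeightedHomogeneous_C bideg a).mul h0
    simpa using this
  · exact MvPolynomial.isWeightedHomogeneous_C bideg b

omit [CharZero k] [IsAlgClosed k] [DecidableEq k] in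
lemma wh_sub {p q : MvPolynomial (Fin 7) k} {e : ℕ × ℕ}
    (hp : MvPolynomial.IsWeightedHomogeneous bideg p e)
    (hq : MvPolynomial.IsWeightedHomogeneous bideg q e) :
    MvPolynomial.IsWeightedHomogeneous bideg (p - q) e :=
  (MvPolynomial.weightedHomogeneousSubmodule k bideg e).sub_mem hp hq

open MvPolynomial in
omit [CharZero k] [IsAlgClosed k] [DecidableEq k] in
/-- part 1: `𝒳` is closed -/
lemma closed_curve : ZClosed (Curve a b) := by
  refine ⟨{X 1 - X 0 * X 3, X 2 ^ 2 - fpol a b * X 3 ^ 2, X 4 - X 0 * fpol a b * X 6,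
    X 5 - fpol a b ^ 2 * X 6}, ?_, ?_⟩
  · have e0 : bideg 0 = 0 := rfl
    have e1 : bideg 1 = (1, 0) := rfl
    have e2 : bideg 2 = (1, 0) := rfl
    have e3 : bideg 3 = (1, 0) := rfl
    have e4 : bideg 4 = (0, 1) := rfl
    have e5 : bideg 5 = (0, 1) := rfl
    have e6 : bideg 6 = (0, 1) := rfl
    intro p hp
    rcases hp with rfl | rfl | rfl | rfl
    · refine ⟨(1, 0), wh_sub (wh_X 1) ?_⟩
      have := (wh_X (k := k) 0).mul (wh_X 3)
      rwa [e0, e3, zero_add] at this
    · refine ⟨(2, 0), wh_sub ?_ ?_⟩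
      · have := (wh_X (k := k) 2).pow 2
        rwa [e2] at this
      · have := (wh_fpol (a := a) (b := b)).mul ((wh_X (k := k) 3).pow 2)
        rwa [e3, zero_add] at this
    · refine ⟨(0, 1), wh_sub (wh_X 4) ?_⟩
      have := ((wh_X (k := k) 0).mul (wh_fpol (a := a) (b := b))).mul (wh_X 6)
      rwa [e0, e6, zero_add, zero_add] at this
    · refine ⟨(0, 1), wh_sub (wh_X 5) ?_⟩
      have := ((wh_fpol (a := a) (b := b)).pow 2).mul (wh_X 6)
      rwa [e6, smul_zero, zero_add] at this
  · intro z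
    constructor
    · rintro ⟨y, ⟨h1, h3⟩, h2, h4⟩ p hp
      rw [coords_curve h3 h4]
      have hy := (crv_ns.1 h1).1
      have v0 : vecX a b z.1.1 y 0 = z.1.1 := rfl
      have v1 : vecX a b z.1.1 y 1 = z.1.1 := rfl
      have v2 : vecX a b z.1.1 y 2 = y := rfl
      have v3 : vecX a b z.1.1 y 3 = 1 := rfl
      have v4 : vecX a b z.1.1 y 4 = z.1.1 * cub a b z.1.1 := rfl
      have v5 : vecX a b z.1.1 y 5 = cub a b z.1.1 * cub a b z.1.1 := rfl
      have v6 : vecX a b z.1.1 y 6 = 1 := rfl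
      rcases hp with rfl | rfl | rfl | rfl
      · rw [map_sub, map_mul, eval_X, eval_X, eval_X, v0, v1, v3]
        ring
      · rw [map_sub, map_mul, map_pow, map_pow, eval_X, eval_X, eval_fpol, v0, v2, v3, hy]
        ring
      · rw [map_sub, map_mul, map_mul, eval_X, eval_X, eval_X, eval_fpol, v0, v4, v6]
        ring
      · rw [map_sub, map_mul, map_pow, eval_X, eval_X, eval_fpol, v0, v5, v6]
        ring
    · intro hz
      have h1 := hz _ (Or.inl rfl)
      have h2 := hz _ (Or.inr (Or.inl rfl))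
      have h3 := hz _ (Or.inr (Or.inr (Or.inl rfl)))
      have h4 := hz _ (Or.inr (Or.inr (Or.inr rfl)))
      rw [map_sub, map_mul, eval_X, eval_X, eval_X] at h1
      rw [map_sub, map_mul, map_pow, map_pow, eval_X, eval_X, eval_fpol] at h2
      rw [map_sub, map_mul, map_mul, eval_X, eval_X, eval_X, eval_fpol] at h3
      rw [map_sub, map_mul, map_pow, eval_X, eval_X, eval_fpol] at h4
      obtain ⟨s, P, P'⟩ := z
      have c0 : coords (⟨s, (P, P')⟩ : Total a b) 0 = s.1 := rfl
      have c1 : coords (⟨s, (P, P')⟩ : Total a b) 1 = hom P 0 := rfl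
      have c2 : coords (⟨s, (P, P')⟩ : Total a b) 2 = hom P 1 := rfl
      have c3 : coords (⟨s, (P, P')⟩ : Total a b) 3 = hom P 2 := rfl
      have c4 : coords (⟨s, (P, P')⟩ : Total a b) 4 = hom P' 0 := rfl
      have c5 : coords (⟨s, (P, P')⟩ : Total a b) 5 = hom P' 1 := rfl
      have c6 : coords (⟨s, (P, P')⟩ : Total a b) 6 = hom P' 2 := rfl
      rw [c0, c1, c3] at h1
      rw [c0, c2, c3] at h2
      rw [c0, c4, c6] at h3
      rw [c0, c5, c6] at h4
      rcases P with _ | ⟨x, y, h⟩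
      · exfalso
        have e : (Affine.Point.zero : Pts a b) = 0 := rfl
        rw [e, hom_zero] at h2
        simp at h2
      rcases P' with _ | ⟨x', y', h'⟩
      · exfalso
        have e : (Affine.Point.zero : (Twist a b s).toAffine.Point) = 0 := rfl
        rw [e, hom_zero] at h4
        simp at h4
      rw [hom_some] at h1 h3 h4
      simp at h1 h3 h4
      have ex : x = s.1 := sub_eq_zero.1 h1
      have ex' : x' = s.1 * cub a b s.1 := sub_eq_zero.1 h3
      have ey' : y' = cub a b s.1 ^ 2 := sub_eq_zero.1 h4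
      subst ex ex' ey'
      exact ⟨y, ⟨h, rfl⟩, h', rfl⟩

/-- part 2: a closed subset contains `𝒳` or meets it in finitely many points -/
lemma curve_or_finite {C : Set (Total a b)} (hC : ZClosed C) :
    Curve a b ⊆ C ∨ (Curve a b ∩ C).Finite := by
  obtain ⟨F, -, hF⟩ := hC
  by_cases h : ∀ p ∈ F, ∀ s δ, δ ^ 2 = cub a b s → MvPolynomial.eval (vecX a b s δ) p = 0
  · left
    intro z hz
    obtain ⟨y, ⟨h1, h3⟩, h2, h4⟩ := hz
    rw [hF]
    intro p hp
    rw [coords_curve h3 h4]
    exact h p hp _ _ (crv_ns.1 h1).1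
  · right
    push Not at h
    obtain ⟨p, hp, s, δ, hs, hne⟩ := h
    have hfin : {z : k × k | z.2 ^ 2 = cub a b z.1 ∧
        MvPolynomial.eval (vecX a b z.1 z.2) p = 0}.Finite := by
      by_contra hinf
      exact hne ((Rep.eval rep_vecX p).zero hinf s δ hs)
    -- the map to the coordinates
    let c : Total a b → k × k := fun z => (z.1.1, hom z.2.1 1)
    refine Set.Finite.of_finite_image (f := c) (hfin.subset ?_) ?_
    · rintro _ ⟨z, ⟨hz, hzC⟩, rfl⟩
      obtain ⟨y, ⟨h1, h3⟩, h2, h4⟩ := hz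
      have e : c z = (z.1.1, y) := by
        show (z.1.1, hom z.2.1 1) = _
        rw [h3]
        rfl
      rw [e]
      refine ⟨(crv_ns.1 h1).1, ?_⟩
      have h5 := (hF z).1 hzC p hp
      rw [coords_curve h3 h4] at h5
      exact h5
    · rintro z ⟨hz, -⟩ w ⟨hw, -⟩ hzw
      obtain ⟨y, ⟨h1, h3⟩, h2, h4⟩ := hz
      obtain ⟨y', ⟨h1', h3'⟩, h2', h4'⟩ := hw
      obtain ⟨⟨s, hs⟩, P, P'⟩ := z
      obtain ⟨⟨s', hs'⟩, Q, Q'⟩ := w
      simp only at h1 h2 h3 h4 h1' h2' h3' h4'
      have e1 : s = s' := congrArg Prod.fst hzw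
      have e2 : y = y' := by
        have := congrArg Prod.snd hzw
        simp only [c] at this
        rw [h3, h3'] at this
        exact this
      subst e1 e2
      rw [h3, h4, h3', h4']

/-- part 3, the basic step: multiples of the points of `𝒳` -/
lemma multiples {G : Set (Total a b)} {s : Base a b} {H : AddSubgroup (Fibre a b s)}
    (hH : ∀ x : Fibre a b s, (⟨s, x⟩ : Total a b) ∈ G ↔ x ∈ H)
    (hX : ∀ z ∈ Curve a b, z.1 = s → z ∈ G) {y : k} (hs : y ^ 2 = cub a b s.1)
    (h : (crv a b).toAffine.Nonsingular s.1 y) {g} (hg : IsPsi s y g) {m : ℕ} (hm : 1 ≤ m) :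
    ((2 ^ m • (Affine.Point.some s.1 y h : Pts a b), 0) : Fibre a b s) ∈ H ∧
    ((0, g (2 ^ m • (Affine.Point.some s.1 y h : Pts a b))) : Fibre a b s) ∈ H := by
  set P : Pts a b := Affine.Point.some s.1 y h with hP
  have h1 : ((P, g P) : Fibre a b s) ∈ H := (hH _).1 (hX _ (mem_curve s hs h hg) rfl)
  have h2 : ((-P, g P) : Fibre a b s) ∈ H := (hH _).1 (hX _ (mem_curve' s hs h hg) rfl)
  obtain ⟨n, rfl⟩ : ∃ n, m = n + 1 := ⟨m - 1, by omega⟩
  constructor
  · have h3 := H.nsmul_mem (H.sub_mem h1 h2) (2 ^ n)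
    have e : (2 ^ n • (((P, g P) : Fibre a b s) - (-P, g P)) : Fibre a b s) = (2 ^ (n + 1) • P, 0) := by
      ext1
      · show 2 ^ n • (P - -P) = 2 ^ (n + 1) • P
        rw [pow_succ, mul_smul, two_smul, sub_neg_eq_add]
      · show 2 ^ n • (g P - g P) = 0
        rw [sub_self, smul_zero]
    rwa [e] at h3
  · have h3 := H.nsmul_mem (H.add_mem h1 h2) (2 ^ n)
    have e : (2 ^ n • (((P, g P) : Fibre a b s) + (-P, g P)) : Fibre a b s) =
        (0, g (2 ^ (n + 1) • P)) := by
      ext1
      · show 2 ^ n • (P + -P) = 0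
        rw [add_neg_cancel, smul_zero]
      · show 2 ^ n • (g P + g P) = g (2 ^ (n + 1) • P)
        have e1 : (2 : ℕ) ^ (n + 1) = 2 ^ n * 2 := pow_succ 2 n
        rw [map_nsmul, e1, mul_smul, two_smul]
    rwa [e] at h3

omit [CharZero k] [IsAlgClosed k] [DecidableEq k] in
lemma finite_roots (a b : k) : {s : k | cub a b s = 0}.Finite := by
  have hne : (Polynomial.X ^ 3 + (Polynomial.C a * Polynomial.X + Polynomial.C b) :
      Polynomial k) ≠ 0 := by
    intro h
    have h1 : (Polynomial.X ^ 3 + (Polynomial.C a * Polynomial.X + Polynomial.C b) :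
      Polynomial k).natDegree = 3 := by compute_degree!
    rw [h] at h1
    simp at h1
  refine (Polynomial.finite_setOfPred_isRoot hne).subset fun s hs => ?_
  show Polynomial.eval s _ = 0
  simp only [Polynomial.eval_add, Polynomial.eval_mul, Polynomial.eval_pow, Polynomial.eval_X,
    Polynomial.eval_C]
  have h1 : s ^ 3 + a * s + b = 0 := hs
  linear_combination h1

/-- infinitely many good points with `2 ^ m • P = R` -/
lemma good (hd : 4 * a ^ 3 + 27 * b ^ 2 ≠ 0) {N : Set (Base a b)} (hN : N.Finite) (R : Pts a b) :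
    {z : k × k | z.2 ^ 2 = cub a b z.1 ∧ ∃ hz : cub a b z.1 ≠ 0,
      (⟨z.1, hz⟩ : Base a b) ∉ N ∧ ∃ (h : (crv a b).toAffine.Nonsingular z.1 z.2) (m : ℕ), 1 ≤ m ∧
        2 ^ m • (Affine.Point.some z.1 z.2 h : Pts a b) = R}.Infinite := by
  obtain ⟨T, hT, hT2⟩ := exists_two hd
  have h1 := infinite_pow (exists_half hd) hT hT2 R
  have h2 := infinite_coords h1 ((hN.image Subtype.val).union (finite_roots a b))
  refine h2.mono ?_
  rintro ⟨s, y⟩ ⟨h3, h4, h5, m, hm, h6⟩
  simp only at h3 h4 h5 h6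
  refine ⟨h3, fun h => h4 (Or.inr h), fun h => h4 (Or.inl ⟨_, h, rfl⟩), h5, m, hm, h6⟩

/-- part 3: no strict group subscheme -/
theorem no_subscheme (hd : 4 * a ^ 3 + 27 * b ^ 2 ≠ 0) {G : Set (Total a b)} (hG : ZClosed G)
    {N : Set (Base a b)} (hN : N.Finite) (hsub : ∀ s ∉ N, SubgroupAt G s)
    (hX : ∀ z ∈ Curve a b, z.1 ∉ N → z ∈ G) : G = Set.univ := by
  have hA : ∀ (s : Base a b) (δ : k), δ ^ 2 = cub a b s.1 → ∀ g, IsPsi s δ g → ∀ R : Pts a b,
      (⟨s, (R, g 0)⟩ : Total a b) ∈ G := by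
    intro s δ hδ g hg R
    refine closed_step hG R 0 ((good hd hN R).mono ?_) s hδ hg
    rintro ⟨t, y⟩ ⟨h1, h2, h3, h4, m, hm, h5⟩
    refine ⟨h1, h2, fun g' hg' => ?_⟩
    obtain ⟨H, hH⟩ := hsub _ h3
    have h6 := (multiples hH (fun z hz hzs => hX z hz (by rw [hzs]; exact h3)) h1 h4 hg' hm).1
    have h7 := (hH _).2 h6
    rw [h5] at h7
    rw [map_zero]
    exact h7
  have hB : ∀ (s : Base a b) (δ : k), δ ^ 2 = cub a b s.1 → ∀ g, IsPsi s δ g → ∀ R : Pts a b,
      (⟨s, (0, g R)⟩ : Total a b) ∈ G := by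
    intro s δ hδ g hg R
    refine closed_step hG 0 R ((good hd hN R).mono ?_) s hδ hg
    rintro ⟨t, y⟩ ⟨h1, h2, h3, h4, m, hm, h5⟩
    refine ⟨h1, h2, fun g' hg' => ?_⟩
    obtain ⟨H, hH⟩ := hsub _ h3
    have h6 := (multiples hH (fun z hz hzs => hX z hz (by rw [hzs]; exact h3)) h1 h4 hg' hm).2
    have h7 := (hH _).2 h6
    rw [h5] at h7
    exact h7
  have hC : ∀ (s : Base a b) (δ : k), δ ^ 2 = cub a b s.1 → ∀ g, IsPsi s δ g → ∀ R R' : Pts a b,
      (⟨s, (R, g R')⟩ : Total a b) ∈ G := by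
    intro s δ hδ g hg R R'
    refine closed_step hG R R' ((good hd hN 0).mono ?_) s hδ hg
    rintro ⟨t, y⟩ ⟨h1, h2, h3, h4, m, hm, h5⟩
    refine ⟨h1, h2, fun g' hg' => ?_⟩
    obtain ⟨H, hH⟩ := hsub _ h3
    have h6 := (hH _).1 (hA ⟨t, h2⟩ y h1 g' hg' R)
    have h7 := (hH _).1 (hB ⟨t, h2⟩ y h1 g' hg' R')
    have h8 := (hH _).2 (H.add_mem h6 h7)
    have e : ((R, g' 0) : Fibre a b ⟨t, h2⟩) + (0, g' R') = (R, g' R') := by
      ext1
      · exact add_zero R
      · show g' 0 + g' R' = g' R'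
        rw [map_zero, zero_add]
    rw [e] at h8
    exact h8
  ext z
  refine ⟨fun _ => trivial, fun _ => ?_⟩
  obtain ⟨s, P, P'⟩ := z
  obtain ⟨δ, hδ, hδ2⟩ := exists_root s
  obtain ⟨g, hg⟩ := exists_psi s hδ hδ2
  obtain ⟨R', hR'⟩ := hg.1.2 P'
  have := hC s δ hδ2 g hg P R'
  rw [hR'] at this
  exact this

/-- part 4: infinitely many torsion points -/
theorem infinite_special (hd : 4 * a ^ 3 + 27 * b ^ 2 ≠ 0) : (Curve a b ∩ Special a b).Infinite := by
  intro hfin
  refine good hd (N := ∅) Set.finite_empty 0 ((hfin.image fun z => (z.1.1, hom z.2.1 1)).subset ?_)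
  rintro ⟨t, y⟩ ⟨h1, h2, -, h4, m, hm, h5⟩
  simp only at h1 h2 h4 h5
  have hy : y ≠ 0 := by
    rintro rfl
    apply h2
    rw [← h1]
    ring
  obtain ⟨g, hg⟩ := exists_psi ⟨t, h2⟩ hy h1
  refine ⟨_, ⟨mem_curve ⟨t, h2⟩ h1 h4 hg, ?_⟩, rfl⟩
  set P : Pts a b := Affine.Point.some t y h4 with hP
  set x : Fibre a b ⟨t, h2⟩ := (P, g P) with hx
  refine ⟨AddSubgroup.zmultiples x, ?_, AddSubgroup.mem_zmultiples x⟩
  have h6 : IsOfFinAddOrder x := by
    rw [isOfFinAddOrder_iff_nsmul_eq_zero]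
    refine ⟨2 ^ m, by positivity, ?_⟩
    ext1
    · exact h5
    · show 2 ^ m • g P = 0
      rw [← map_nsmul, h5, map_zero]
  exact finite_zmultiples.2 h6

end proofs

/-- **A counterexample to Q1 for every elliptic curve.** The curve `𝒳` in the abelian scheme
`E × E'` over the line minus the zeros of `f` is closed, irreducible and of dimension one, it is in no
strict group subscheme, also over open subsets of the base, and its points in algebraic subgroups of
codimension greater than one of the fibres are Zariski dense. -/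
theorem result (k : Type) [Field k] [CharZero k] [IsAlgClosed k] [DecidableEq k] (a b : k)
    (hd : 4 * a ^ 3 + 27 * b ^ 2 ≠ 0) :
    (ZClosed (Curve a b) ∧ (Curve a b).Infinite ∧
      ∀ C : Set (Total a b), ZClosed C → Curve a b ⊆ C ∨ (Curve a b ∩ C).Finite) ∧
    (∀ G : Set (Total a b), ZClosed G → ∀ N : Set (Base a b), N.Finite →
      (∀ s ∉ N, SubgroupAt G s) → (∀ z ∈ Curve a b, z.1 ∉ N → z ∈ G) → G = Set.univ) ∧
    (∀ C : Set (Total a b), ZClosed C → Curve a b ∩ Special a b ⊆ C → Curve a b ⊆ C) := by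
  refine ⟨⟨closed_curve, (infinite_special hd).mono Set.inter_subset_left,
    fun C hC => curve_or_finite hC⟩, fun G hG N hN h1 h2 => no_subscheme hd hG hN h1 h2,
    fun C hC h => ?_⟩
  rcases curve_or_finite hC with h1 | h1
  · exact h1
  · exact absurd (h1.subset (Set.subset_inter Set.inter_subset_left h)) (infinite_special hd)

end Pool.Agent.Results.MP_28d749_ag.WeilRestriction
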